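import Pool.Agent.Helper90.MZ.StmtsT

set_option autoImplicit false

namespace Pool.Agent.Helper90.MZ

open Pool.Agent.Helper90.TS
open FirstOrder Language

/-- a set given by a formula is definable -/
theorem ots_def {L : FirstOrder.Language.{0, 0}} {C : Type} [L.Structure C] {ι : Type}
    (A : Set C) (φ : L.Formula ι) : A.Definable L {v : ι → C | φ.Realize v} := by
  apply Set.Definable.mono _ (Set.empty_subset A)
  exact Set.empty_definable_iff.2 ⟨φ, rfl⟩

/-- indices of finitely many elements of a sequence -/
theorem ots_idx {C : Type} (c : ℕ → C) {n : ℕ} (x : Fin n → C) (hx : ∀ i, x i ∈ Set.range c) :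
    ∃ (k : ℕ) (e : Fin n → Fin k), ∀ i, c (e i) = x i := by
  choose e he using hx
  refine ⟨(Finset.univ.sup e) + 1, fun i => ⟨e i, Nat.lt_succ_of_le
    (Finset.le_sup (f := e) (Finset.mem_univ i))⟩, fun i => he i⟩

theorem st_OTS (hOTW : ST_OTW) : ST_OTS := by
  classical
  intro L C _ S hM A U hA hAU h1 h2
  rcases isEmpty_or_nonempty C with hC | hC
  · refine ⟨⊤, ?_, ?_, ?_⟩
    · exact Set.Countable.mono (Set.subset_univ _) (Set.countable_univ (α := C))
    · intro x _
      exact isEmptyElim x
    · intro x _
      exact isEmptyElim x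
  · obtain ⟨c, hc1, hc2⟩ := hOTW L C S hM A U hA hAU h1 h2
    let N0 : L.Substructure C :=
      { carrier := Set.range c
        fun_mem := by
          intro n f x hx
          obtain ⟨k, e, he⟩ := ots_idx c x hx
          have hdef := ots_def (C := C) A
            ((Term.func f (fun i => Term.var (Sum.inl (e i)))).equal
              (Term.var (Sum.inr ())) : L.Formula (Fin k ⊕ Unit))
          obtain ⟨j, hj⟩ := hc1 k _ hdef ⟨fun _ => Structure.funMap f x, by
            show Formula.Realize _ _
            rw [Formula.realize_equal]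
            simp only [Term.realize_func, Term.realize_var, Sum.elim_inl, Sum.elim_inr]
            congr 1
            funext i
            exact he i⟩
          have hj' : Formula.Realize _ _ := hj
          rw [Formula.realize_equal] at hj'
          simp only [Term.realize_func, Term.realize_var, Sum.elim_inl, Sum.elim_inr] at hj'
          refine ⟨j, ?_⟩
          rw [← hj']
          congr 1
          funext i
          exact he i }
    have hN0 : (N0 : Set C) = Set.range c := rfl
    have htv : ∀ (n : ℕ) (φ : L.BoundedFormula Empty (n + 1)) (x : Fin n → N0) (a : C),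
        φ.Realize default (Fin.snoc ((↑) ∘ x) a : _ → C) →
          ∃ b : N0, φ.Realize default (Fin.snoc ((↑) ∘ x) b : _ → C) := by
      intro n φ x a ha
      obtain ⟨k, e, he⟩ := ots_idx c (fun i => ((x i : N0) : C)) (fun i => (x i).2)
      let g : Empty ⊕ Fin (n + 1) → Fin k ⊕ Unit :=
        Sum.elim Empty.elim (Fin.snoc (fun i => Sum.inl (e i)) (Sum.inr ()))
      have hdef := ots_def (C := C) A ((φ.toFormula.relabel g : L.Formula (Fin k ⊕ Unit)))
      have key : ∀ y : C, (φ.toFormula.relabel g : L.Formula (Fin k ⊕ Unit)).Realize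
          (Sum.elim (fun i : Fin k => c i) (fun _ => y)) ↔
          φ.Realize default (Fin.snoc ((↑) ∘ x) y : _ → C) := by
        intro y
        rw [Formula.realize_relabel, BoundedFormula.realize_toFormula]
        have e1 : ((Sum.elim (fun i : Fin k => c i) (fun _ => y)) ∘ g) ∘ Sum.inl =
            (default : Empty → C) := Subsingleton.elim _ _
        have e2 : ((Sum.elim (fun i : Fin k => c i) (fun _ : Unit => y)) ∘ g) ∘ Sum.inr =
            (Fin.snoc ((↑) ∘ x) y : Fin (n + 1) → C) := by
          funext i
          refine Fin.lastCases ?_ (fun i => ?_) i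
          · simp [g]
          · simp [g, he i]
        rw [e1, e2]
      obtain ⟨j, hj⟩ := hc1 k _ hdef ⟨fun _ => a, (key a).2 ha⟩
      exact ⟨⟨c j, ⟨j, rfl⟩⟩, (key (c j)).1 hj⟩
    let N : L.ElementarySubstructure C := N0.toElementarySubstructure htv
    have hN : (N : Set C) = Set.range c := rfl
    refine ⟨N, ?_, ?_, ?_⟩
    · rw [hN]
      exact Set.countable_range c
    · intro a ha
      rw [hN]
      have hdef : A.Definable L {v : Fin 0 ⊕ Unit → C | v (Sum.inr ()) = a} := by
        rw [st_CPAR L C]
        refine ⟨1, fun _ => a, {v | v (Sum.inr (Sum.inr ())) = v (Sum.inl 0)}, ?_, ?_, ?_⟩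
        · rintro _ ⟨_, rfl⟩
          exact ha
        · have := ots_def (C := C) (∅ : Set C) ((Term.var (Sum.inr (Sum.inr ()))).equal
            (Term.var (Sum.inl 0)) : L.Formula (Fin 1 ⊕ (Fin 0 ⊕ Unit)))
          have e1 : {v : Fin 1 ⊕ (Fin 0 ⊕ Unit) → C | v (Sum.inr (Sum.inr ())) = v (Sum.inl 0)} =
              {v | ((Term.var (Sum.inr (Sum.inr ()))).equal
            (Term.var (Sum.inl 0)) : L.Formula (Fin 1 ⊕ (Fin 0 ⊕ Unit))).Realize v} := by
            ext v
            show _ ↔ Formula.Realize _ _
            rw [Formula.realize_equal]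
            rfl
          rw [e1]
          exact this
        · rfl
      obtain ⟨j, hj⟩ := hc1 0 _ hdef ⟨fun _ => a, rfl⟩
      exact ⟨j, hj⟩
    · rintro x ⟨hx, hxU⟩
      obtain ⟨j, rfl⟩ := hx
      exact hc2 j hxU

end Pool.Agent.Helper90.MZ
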