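import Pool.Agent.Helper90.MZ.StmtsA

set_option autoImplicit false

namespace Pool.Agent.Helper90.MZ

open Pool.Agent.Helper90.TS

variable {V G : Type} [Group G] [MulAction G V]

/-- the elements of the first tuples -/
def pwa_U (f : ℕ → Fin 1 → V) (j : ℕ) : Set V := ⋃ k ∈ {k | k < j}, Set.range (f k)

theorem pwa_U_zero (f : ℕ → Fin 1 → V) : pwa_U f 0 = ∅ := by
  unfold pwa_U
  simp

theorem pwa_U_succ (f : ℕ → Fin 1 → V) (j : ℕ) :
    pwa_U f (j + 1) = pwa_U f j ∪ Set.range (f j) := by
  ext x
  unfold pwa_U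
  simp only [Set.mem_iUnion, Set.mem_ofPred_eq, exists_prop, Set.mem_union]
  constructor
  · rintro ⟨k, hk, hx⟩
    rcases Nat.lt_succ_iff_lt_or_eq.1 hk with h | h
    · exact Or.inl ⟨k, h, hx⟩
    · subst h
      exact Or.inr hx
  · rintro (⟨k, hk, hx⟩ | hx)
    · exact ⟨k, by omega, hx⟩
    · exact ⟨j, by omega, hx⟩

theorem pwa_U_cnt (f : ℕ → Fin 1 → V) (j : ℕ) : (pwa_U f j).Countable := by
  induction j with
  | zero => rw [pwa_U_zero]; exact Set.countable_empty
  | succ j ih => rw [pwa_U_succ]; exact ih.union (Set.countable_range _)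

theorem pwa_U_tr (g : G) (f : ℕ → Fin 1 → V) (j : ℕ) :
    tr g (pwa_U f j) = pwa_U (fun k => g • f k) j := by
  induction j with
  | zero => rw [pwa_U_zero, pwa_U_zero, tr_empty]
  | succ j ih =>
    rw [pwa_U_succ, pwa_U_succ, ← ih]
    have h1 : Set.range (g • f j) = tr g (Set.range (f j)) := (tr_range g (f j)).symm
    rw [h1]
    exact Set.image_union _ _ _

theorem st_PWA (hRLB : ST_RLB) (hIND : ST_IND) : ST_PWA := by
  intro V G _ _ X p B g1 g2 y hp hB hy hg1 hg2 hgg
  by_contra hcon
  rw [not_or] at hcon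
  obtain ⟨hn1, hn2'⟩ := hcon
  have hpA : p.A.Countable := hp.cnt
  set A : Set V := p.A ∪ B with hAdef
  have hA : A.Countable := hpA.union hB
  have hyc : ∀ z : Fin 1 → V, (Set.range z).Countable := fun z => Set.countable_range z
  -- `g2` finite
  obtain ⟨g3, hg3, hg3f, hn2⟩ : ∃ g3 ⊆ g2, g3.Finite ∧ ¬ SI X A (Set.range y) g3 := by
    by_contra hc
    push Not at hc
    apply hn2'
    apply si_finite hA (hyc y) hg2
    intro B0 C0 hB0 hC0 _ hC0f
    exact si_left hB0 (hc C0 hC0 hC0f)
  have hg3c : g3.Countable := hg3f.countable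
  have hgg3 : SI X A g1 g3 := si_right hA hg1 hg2 hg3 hgg
  have hA3 : (A ∪ g3).Countable := hA.union hg3c
  have hyD : y ∈ p.D := (hRLB V G X p hp B hB).2.2.2.2.2.2.1 y hy
  -- the claim
  have claim : ∀ (n : ℕ) (f : ℕ → Fin 1 → V), (∀ j < n, Eqv G (A ∪ g3) y (f j)) →
      (∀ j < n, SI X (A ∪ g3) (Set.range (f j)) (pwa_U f j)) →
      ∀ j < n, SI X A (Set.range (f j)) (pwa_U f j) := by
    intro n
    induction n with
    | zero => intro f _ _ j hj; omega
    | succ n ih =>
      intro f hf1 hf2 j hj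
      rcases Nat.lt_succ_iff_lt_or_eq.1 hj with h | h
      · exact ih f (fun k hk => hf1 k (by omega)) (fun k hk => hf2 k (by omega)) j h
      · subst h
        obtain ⟨h, hh, hhy⟩ := hf1 j (by omega)
        obtain ⟨h', hh', hsi⟩ := si_ex (X := X) (A := A ∪ g3 ∪ Set.range y)
          (B := tr h⁻¹ (pwa_U f j)) (C := g1) (hA3.union (hyc y))
          (tr_countable _ (pwa_U_cnt f j)) hg1
        set k0 : G := h' * h⁻¹ with hk0
        have hh'3 : h' ∈ Fx G (A ∪ g3) := (fx_union.1 hh').1
        have hk03 : k0 ∈ Fx G (A ∪ g3) := (Fx G (A ∪ g3)).mul_mem hh'3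
          ((Fx G (A ∪ g3)).inv_mem hh)
        have hk0A : k0 ∈ Fx G A := (fx_union.1 hk03).1
        set f' : ℕ → Fin 1 → V := fun k => k0 • f k with hf'
        have hf'j : f' j = y := by
          have h1 : h⁻¹ • f j = y := by rw [← hhy, inv_smul_smul]
          have h2 : h' • y = y := by
            funext i
            exact (fx_union.1 hh').2 _ ⟨i, rfl⟩
          show (h' * h⁻¹) • f j = y
          rw [mul_smul, h1, h2]
        have hU : tr k0 (pwa_U f j) = pwa_U f' j := pwa_U_tr k0 f j
        have hU' : tr h' (tr h⁻¹ (pwa_U f j)) = pwa_U f' j := by rw [tr_tr, ← hk0, hU]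
        rw [hU'] at hsi
        have hr : ∀ k, tr k0 (Set.range (f k)) = Set.range (f' k) := fun k => tr_range k0 (f k)
        have hUk : ∀ k, tr k0 (pwa_U f k) = pwa_U f' k := fun k => pwa_U_tr k0 f k
        have hf1' : ∀ k < j + 1, Eqv G (A ∪ g3) y (f' k) := by
          intro k hk
          obtain ⟨l, hl, hly⟩ := hf1 k hk
          refine ⟨k0 * l, (Fx G (A ∪ g3)).mul_mem hk03 hl, ?_⟩
          rw [mul_smul, hly]
        have hf2' : ∀ k < j + 1, SI X (A ∪ g3) (Set.range (f' k)) (pwa_U f' k) := by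
          intro k hk
          rw [← hr, ← hUk]
          exact (si_fx hA3 (hyc _) (pwa_U_cnt _ _) hk03).2 (hf2 k hk)
        have hIH := ih f' (fun k hk => hf1' k (by omega)) (fun k hk => hf2' k (by omega))
        have hUc := pwa_U_cnt f' j
        -- `Y` is independent from `y ∪ g1` over `A ∪ g3`
        have h1 : SI X (A ∪ g3) (pwa_U f' j) (Set.range y) := by
          have := hf2' j (by omega)
          rw [hf'j] at this
          exact si_symm hA3 (hyc y) hUc this
        have h2 : SI X (A ∪ g3) (pwa_U f' j) (Set.range y ∪ g1) :=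
          si_trans hA3 hUc (hyc y) hg1 h1 hsi
        have h3 : SI X (A ∪ g3) (pwa_U f' j) g1 :=
          si_right hA3 hUc ((hyc y).union hg1) Set.subset_union_right h2
        have h4 : SI X A g1 (g3 ∪ pwa_U f' j) :=
          si_trans hA hg1 hg3c hUc hgg3 (si_symm hA3 hUc hg1 h3)
        have h5 : SI X A (pwa_U f' j) g1 :=
          si_symm hA hg1 hUc (si_right hA hg1 (hg3c.union hUc) Set.subset_union_right h4)
        -- regularity
        have h6 : ∀ k < j, SI X (A ∪ g1 ∪ pwa_U f' k) (Set.range (f' k)) (Set.range y) := by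
          intro k hk
          have hUkc := pwa_U_cnt f' k
          have hsub : pwa_U f' (k + 1) ⊆ pwa_U f' j := by
            unfold pwa_U
            apply Set.biUnion_subset_biUnion_left
            intro l hl
            simp only [Set.mem_ofPred_eq] at hl ⊢
            omega
          have h7 : SI X A (pwa_U f' k ∪ Set.range (f' k)) g1 := by
            rw [← pwa_U_succ]
            exact si_left hsub h5
          have h8 := ((si_unionl hA hUkc hg1 (hyc (f' k))).1 h7).2
          have h9 : SI X A (Set.range (f' k)) (pwa_U f' k ∪ g1) :=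
            si_trans hA (hyc _) hUkc hg1 (hIH k hk) h8
          have h10 : Rl X p B (f' k) := by
            obtain ⟨l, hl, hly⟩ := hf1' k (by omega)
            exact (hRLB V G X p hp B hB).2.2.2.2.2.1 y (f' k) hy
              ⟨l, (fx_union.1 hl).1, hly⟩
          have h11 : Rl X p (B ∪ (pwa_U f' k ∪ g1)) (f' k) :=
            (hRLB V G X p hp B hB).2.2.2.1 (f' k) _ (hUkc.union hg1) h10 h9
          have hBc : (B ∪ (pwa_U f' k ∪ g1)).Countable := hB.union (hUkc.union hg1)
          rcases hp.reg (B ∪ (pwa_U f' k ∪ g1)) hBc y hyD with h12 | h12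
          · exfalso
            apply hn1
            have h13 := (hRLB V G X p hp B hB).2.2.2.2.1 y (pwa_U f' k ∪ g1) (hUkc.union hg1) h12
            exact si_right hA (hyc y) (hUkc.union hg1) Set.subset_union_right h13
          · have h13 := h12 (f' k) h11
            have he : p.A ∪ (B ∪ (pwa_U f' k ∪ g1)) = A ∪ g1 ∪ pwa_U f' k := by
              rw [hAdef]
              ext x
              simp only [Set.mem_union]
              tauto
            rwa [he] at h13
        have h7 : ∀ k ≤ j, SI X (A ∪ g1) (pwa_U f' k) (Set.range y) := by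
          intro k
          induction k with
          | zero => intro _; rw [pwa_U_zero]; exact si_empty_left
          | succ k ihk =>
            intro hk
            rw [pwa_U_succ]
            exact (si_unionl (hA.union hg1) (pwa_U_cnt f' k) (hyc y) (hyc (f' k))).2
              ⟨ihk (by omega), h6 k (by omega)⟩
        have h8 : SI X A (pwa_U f' j) (g1 ∪ Set.range y) :=
          si_trans hA hUc hg1 (hyc y) h5 (h7 j le_rfl)
        have h9 : SI X A (pwa_U f' j) (Set.range y) :=
          si_right hA hUc (hg1.union (hyc y)) Set.subset_union_right h8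
        have h10 : SI X A (Set.range (f' j)) (pwa_U f' j) := by
          rw [hf'j]
          exact si_symm hA hUc (hyc y) h9
        rw [← hr, ← hUk] at h10
        exact (si_fx hA (hyc _) (pwa_U_cnt _ _) hk0A).1 h10
  -- the infinite sequence
  obtain ⟨g, hg, hgI, -⟩ := (hIND V G X (A ∪ g3) hA3).2.2.2.2.2.1 (fun _ => Set.range y) ∅
    (fun _ => hyc y) Set.countable_empty
  set f : ℕ → Fin 1 → V := fun i => g i • y with hf
  have hfr : ∀ i, tr (g i) (Set.range y) = Set.range (f i) := fun i => tr_range (g i) y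
  have hf1 : ∀ i, Eqv G (A ∪ g3) y (f i) := fun i => ⟨g i, hg i, rfl⟩
  have hf2 : ∀ i, SI X (A ∪ g3) (Set.range (f i)) (pwa_U f i) := by
    intro i
    have h1 := hgI {i} {j | j < i} (by
      rw [Set.disjoint_singleton_left]
      simp)
    simp only [Set.mem_singleton_iff, Set.iUnion_iUnion_eq_left] at h1
    rw [hfr i] at h1
    have h2 : (⋃ j ∈ {j | j < i}, tr (g j) (Set.range y)) = pwa_U f i := by
      unfold pwa_U
      exact Set.iUnion₂_congr fun j _ => hfr j
    rwa [h2] at h1
  have hf3 : ∀ i, SI X A (Set.range (f i)) (pwa_U f i) := fun i =>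
    claim (i + 1) f (fun j _ => hf1 j) (fun j _ => hf2 j) i (by omega)
  have hf4 : ∀ i, ¬ SI X A (Set.range (f i)) g3 := by
    intro i h
    rw [← hfr i] at h
    exact hn2 ((si_fx_left hA (hyc y) hg3c (hg i)).1 h)
  -- the ranks decrease
  obtain ⟨n, t, ht⟩ : ∃ (n : ℕ) (t : Fin n → V), Set.range t = g3 := by
    have : Finite g3 := hg3f
    obtain ⟨n, ⟨e⟩⟩ := Finite.exists_equiv_fin g3
    refine ⟨n, fun i => (e.symm i : V), ?_⟩
    ext x
    constructor
    · rintro ⟨i, rfl⟩
      exact (e.symm i).2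
    · intro hx
      exact ⟨e ⟨x, hx⟩, by simp⟩
  have hlt : ∀ i, X.rk (A ∪ pwa_U f (i + 1)) t < X.rk (A ∪ pwa_U f i) t := by
    intro i
    have hUc := pwa_U_cnt f i
    have h1 : A ∪ pwa_U f (i + 1) = (A ∪ pwa_U f i) ∪ Set.range (f i) := by
      rw [pwa_U_succ]
      exact (Set.union_assoc A _ _).symm
    have h2 : X.rk (A ∪ pwa_U f (i + 1)) t ≤ X.rk (A ∪ pwa_U f i) t := by
      apply (a_rkb V G X (Fin n) t).2.2.2.1
      rw [h1]
      exact Set.subset_union_left
    refine lt_of_le_of_ne h2 fun h3 => hf4 i ?_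
    rw [h1, rk_si (hA.union hUc) (hyc (f i)), ht] at h3
    have h4 := si_symm (hA.union hUc) hg3c (hyc (f i)) h3
    have h5 := si_trans hA (hyc (f i)) hUc hg3c (hf3 i) h4
    exact si_right hA (hyc (f i)) (hUc.union hg3c) Set.subset_union_right h5
  have hwf : WellFounded ((· < ·) : Ordinal.{0} → Ordinal.{0} → Prop) := wellFounded_lt
  exact (RelEmbedding.natGT (r := ((· < ·) : Ordinal.{0} → Ordinal.{0} → Prop))
    (fun i => X.rk (A ∪ pwa_U f i) t) hlt).not_wellFounded hwf

end Pool.Agent.Helper90.MZ
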